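import Pool.Agent.H891R3.NR.Stmts

/-!
# Task Translate: the combinatorial data of a polyhedron

`Sys.contact` of `Stmts.lean` lacks the hypothesis `l ≠ 0` (without it `Sys` is contradictory).
`SysF`, `TaskTranslateF`, `TaskExistsF`, `TaskCoreF` are the corrected statements, `finalF` is the
assembly and `taskTranslateF` is proved here.
-/

set_option autoImplicit false

namespace Pool.Agent.H944R3.NR

open Module
open Pool.Agent.H891R3.NR
open Pool.Agent.Results.MP_fb3fae_co.AllTriangles (E3 IsConvexPolyhedron IsTwoFace)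

/-- The combinatorial data extracted from a polyhedron (corrected: `l ≠ 0` in `contact`). -/
structure SysF (V : Finset E3) (o : E3) (a b c : ℝ) : Prop where
  /-- the points are not coplanar -/
  noncoplanar : ∀ (l : E3 →ₗ[ℝ] ℝ) (M : ℝ), (∀ v ∈ V, l v = M) → l = 0
  /-- `o` is an interior point -/
  inner : ∀ x y z, Facet V a b c x y z → vol3 (y - x) (z - x) (o - x) < 0
  /-- every supporting plane with three non-collinear points of `V` belongs to a facet -/
  contact : ∀ (l : E3 →ₗ[ℝ] ℝ) (M : ℝ), l ≠ 0 → (∀ v ∈ V, l v ≤ M) →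
    (∃ p ∈ V, ∃ q ∈ V, ∃ r ∈ V, l p = M ∧ l q = M ∧ l r = M ∧ AffineIndependent ℝ ![p, q, r]) →
    ∃ x y z, Facet V a b c x y z ∧ ∀ v ∈ V, (l v = M ↔ v = x ∨ v = y ∨ v = z)

def TaskTranslateF : Prop := ∀ (P : Set E3) (a b c : ℝ), 0 < a → 0 < b → 0 < c →
  AllCopies P a b c →
  ∃ (V : Finset E3) (o : E3), SysF V o a b c ∧ o ∈ interior (convexHull ℝ (V : Set E3))

def TaskExistsF : Prop := ∀ (V : Finset E3) (o : E3), o ∈ interior (convexHull ℝ (V : Set E3)) →
  ∃ (l : E3 →ₗ[ℝ] ℝ) (M : ℝ), l ≠ 0 ∧ (∀ v ∈ V, l v ≤ M) ∧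
    ∃ p ∈ V, ∃ q ∈ V, ∃ r ∈ V, l p = M ∧ l q = M ∧ l r = M ∧ AffineIndependent ℝ ![p, q, r]

def TaskCoreF : Prop := ∀ (V : Finset E3) (o : E3) (a b c : ℝ), 0 < a → 0 < b → 0 < c →
  a ≠ b → b ≠ c → c ≠ a → SysF V o a b c → (∃ x y z, Facet V a b c x y z) →
  ∃ v y z w : E3, dist v y = c ∧ dist z w = c ∧ dist v w = a ∧ dist y z = a ∧ dist v z = b ∧
    dist y w = b ∧ vol3 (y - v) (z - v) (w - v) ≠ 0

theorem finalF (hI : TaskIso) (hA : TaskAcute) (hT : TaskTranslateF) (hE : TaskExistsF)
    (hC : TaskCoreF) (hD : TaskDisphenoid) (a b c : ℝ) (ha : 0 < a) (hb : 0 < b) (hc : 0 < c)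
    (h1 : a < b + c) (h2 : b < c + a) (h3 : c < a + b) :
    (∃ P : Set E3, AllCopies P a b c) ↔ (a = b ∨ b = c ∨ c = a) ∨
      (a ^ 2 < b ^ 2 + c ^ 2 ∧ b ^ 2 < c ^ 2 + a ^ 2 ∧ c ^ 2 < a ^ 2 + b ^ 2) := by
  constructor
  · rintro ⟨P, hP⟩
    by_cases hiso : a = b ∨ b = c ∨ c = a
    · exact Or.inl hiso
    · push Not at hiso
      obtain ⟨V, o, hS, ho⟩ := hT P a b c ha hb hc hP
      obtain ⟨l, M, hl0, hl, hpts⟩ := hE V o ho
      obtain ⟨x, y, z, hF, -⟩ := hS.contact l M hl0 hl hpts
      obtain ⟨v, y, z, w, e1, e2, e3, e4, e5, e6, e7⟩ :=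
        hC V o a b c ha hb hc hiso.1 hiso.2.1 hiso.2.2 hS ⟨x, y, z, hF⟩
      exact Or.inr (hD v y z w a b c ha hb hc e1 e2 e3 e4 e5 e6 e7)
  · rintro (h | ⟨g1, g2, g3⟩)
    · exact hI a b c ha hb hc h1 h2 h3 h
    · exact hA a b c ha hb hc g1 g2 g3

theorem tr_nhd (P : Set E3) (o : E3) (ho : o ∈ interior P) (d : E3) :
    ∃ t : ℝ, 0 < t ∧ o + t • d ∈ P := by
  have hc : Continuous fun t : ℝ => o + t • d := by fun_prop
  have h0 : (fun t : ℝ => o + t • d) 0 ∈ interior P := by simpa using ho
  have h1 := (hc.continuousAt (x := 0)).preimage_mem_nhds (isOpen_interior.mem_nhds h0)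
  rw [Metric.mem_nhds_iff] at h1
  obtain ⟨ε, hε, hs⟩ := h1
  refine ⟨ε / 2, by positivity, interior_subset (hs ?_)⟩
  rw [Metric.mem_ball, dist_zero_right, Real.norm_eq_abs, abs_of_pos (by positivity)]
  linarith

theorem tr_lt (V : Set E3) (o : E3) (ho : o ∈ interior (convexHull ℝ V)) (l : E3 →ₗ[ℝ] ℝ) (M : ℝ)
    (hl : l ≠ 0) (hM : ∀ v ∈ V, l v ≤ M) : (∀ v ∈ convexHull ℝ V, l v ≤ M) ∧ l o < M := by
  have h1 : ∀ v ∈ convexHull ℝ V, l v ≤ M := by
    have h2 : convexHull ℝ V ⊆ {w | l w ≤ M} :=
      convexHull_min (fun v hv => hM v hv) (convex_halfSpace_le l.isLinear M)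
    exact fun v hv => h2 hv
  refine ⟨h1, ?_⟩
  obtain ⟨d, hd⟩ : ∃ d, 0 < l d := by
    by_contra hcon
    push Not at hcon
    apply hl
    ext v
    have e1 := hcon v
    have e2 := hcon (-v)
    rw [map_neg] at e2
    rw [LinearMap.zero_apply]
    linarith
  obtain ⟨t, ht, hmem⟩ := tr_nhd _ o ho d
  have h3 := h1 _ hmem
  rw [map_add, map_smul, smul_eq_mul] at h3
  have h4 : 0 < t * l d := mul_pos ht hd
  linarith

/-- the determinant as a linear functional of the last vector -/
noncomputable def tr_L (u w : E3) : E3 →ₗ[ℝ] ℝ where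
  toFun v := vol3 u w v
  map_add' a b := by
    simp only [vol3, PiLp.add_apply]
    ring
  map_smul' t a := by
    simp only [vol3, PiLp.smul_apply, smul_eq_mul, RingHom.id_apply]
    ring

theorem tr_L_apply (u w v : E3) : tr_L u w v = vol3 u w v := rfl

theorem tr_cramer (u w e v : E3) :
    vol3 u w e • v = vol3 v w e • u + vol3 u v e • w + vol3 u w v • e := by
  ext i
  fin_cases i <;> simp [vol3] <;> ring

theorem tr_vol_self1 (u w : E3) : vol3 u w u = 0 := by
  simp only [vol3]; ring

theorem tr_vol_self2 (u w : E3) : vol3 u w w = 0 := by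
  simp only [vol3]; ring

theorem tr_pigeon (x y z p q r : E3) (hpq : p ≠ q) (hpr : p ≠ r) (hqr : q ≠ r)
    (hp : p = x ∨ p = y ∨ p = z) (hq : q = x ∨ q = y ∨ q = z) (hr : r = x ∨ r = y ∨ r = z) :
    (x = p ∨ x = q ∨ x = r) ∧ (y = p ∨ y = q ∨ y = r) ∧ (z = p ∨ z = q ∨ z = r) := by
  rcases hp with hp | hp | hp <;> rcases hq with hq | hq | hq <;> rcases hr with hr | hr | hr <;>
    subst hp <;> simp_all

theorem taskTranslateF : TaskTranslateF := by
  intro P a b c ha hb hc hall
  obtain ⟨⟨⟨V0, hV0⟩, o, ho⟩, hface⟩ := hall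
  have hfin : (P.extremePoints ℝ).Finite := by
    rw [hV0]
    exact V0.finite_toSet.subset extremePoints_convexHull_subset
  have hcpt : IsCompact P := by
    rw [hV0]
    exact V0.finite_toSet.isCompact_convexHull ℝ
  have hconv : Convex ℝ P := by
    rw [hV0]
    exact convex_convexHull ℝ _
  have hKM : convexHull ℝ (P.extremePoints ℝ) = P := by
    have h1 := closure_convexHull_extremePoints hcpt hconv
    rwa [(hfin.isClosed_convexHull ℝ).closure_eq] at h1
  have hVmem : ∀ v, v ∈ hfin.toFinset ↔ v ∈ P.extremePoints ℝ := fun v => hfin.mem_toFinset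
  have hVhull : convexHull ℝ ((hfin.toFinset : Finset E3) : Set E3) = P := by
    rw [hfin.coe_toFinset, hKM]
  set V := hfin.toFinset with hVdef
  have ho' : o ∈ interior (convexHull ℝ (V : Set E3)) := by rw [hVhull]; exact ho
  have hnc : ∀ (l : E3 →ₗ[ℝ] ℝ) (M : ℝ), (∀ v ∈ V, l v = M) → l = 0 := by
    intro l M hM
    by_contra hl
    have h1 := (tr_lt (V : Set E3) o ho' l M hl (fun v hv => (hM v hv).le)).2
    have h2 := (tr_lt (V : Set E3) o ho' (-l) (-M) (neg_ne_zero.2 hl) (fun v hv => by
      rw [LinearMap.neg_apply, hM v hv])).2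
    rw [LinearMap.neg_apply] at h2
    linarith
  refine ⟨V, o, ⟨hnc, ?_, ?_⟩, ho'⟩
  · -- inner
    rintro x y z ⟨hx, hy, hz, -, -, -, hneg⟩
    set L := tr_L (y - x) (z - x) with hL
    have hLx : ∀ v, vol3 (y - x) (z - x) (v - x) = L v - L x := by
      intro v
      rw [← map_sub]; rfl
    have hLy : L y = L x := by
      have := hLx y
      rw [tr_vol_self1] at this
      linarith
    have hLz : L z = L x := by
      have := hLx z
      rw [tr_vol_self2] at this
      linarith
    by_cases hL0 : L = 0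
    · exfalso
      have hsub : ∀ v ∈ V, v = x ∨ v = y ∨ v = z := by
        intro v hv
        by_contra hcon
        push Not at hcon
        have := hneg v hv hcon.1 hcon.2.1 hcon.2.2
        rw [hLx, hL0] at this
        simp at this
      have hlt : Submodule.span ℝ ({y - x, z - x} : Set E3) < ⊤ := by
        rw [lt_top_iff_ne_top]
        intro htop
        have h1 : finrank ℝ (Submodule.span ℝ ({y - x, z - x} : Set E3)) ≤ 2 :=
          le_trans (finrank_span_le_card _) (by
            rw [Set.toFinset_insert, Set.toFinset_singleton]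
            exact Finset.card_le_two)
        rw [htop, finrank_top] at h1
        simp at h1
      obtain ⟨f, hf0, hf⟩ := Submodule.exists_le_ker_of_lt_top _ hlt
      have hfy : f y = f x := by
        have h1 : f (y - x) = 0 := hf (Submodule.subset_span (by simp))
        rw [map_sub] at h1
        linarith
      have hfz : f z = f x := by
        have h1 : f (z - x) = 0 := hf (Submodule.subset_span (by simp))
        rw [map_sub] at h1
        linarith
      apply hf0
      apply hnc f (f x)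
      intro v hv
      rcases hsub v hv with h | h | h
      · rw [h]
      · rw [h, hfy]
      · rw [h, hfz]
    · rw [hLx]
      have := (tr_lt (V : Set E3) o ho' L (L x) hL0 (by
        intro v hv
        by_cases h1 : v = x
        · rw [h1]
        by_cases h2 : v = y
        · rw [h2, hLy]
        by_cases h3 : v = z
        · rw [h3, hLz]
        have := hneg v hv h1 h2 h3
        rw [hLx] at this
        linarith)).2
      linarith
  · -- contact
    rintro l M hl0 hM ⟨p, hp, q, hq, r, hr, hlp, hlq, hlr, hind⟩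
    obtain ⟨hMP, hoM⟩ := tr_lt (V : Set E3) o ho' l M hl0 hM
    rw [hVhull] at hMP
    have hVP : ∀ v ∈ V, v ∈ P := fun v hv => extremePoints_subset ((hVmem v).1 hv)
    set F : Set E3 := {x | x ∈ P ∧ l x = M} with hF
    have hpF : p ∈ F := ⟨hVP p hp, hlp⟩
    have hqF : q ∈ F := ⟨hVP q hq, hlq⟩
    have hrF : r ∈ F := ⟨hVP r hr, hlr⟩
    have hexp : IsExposed ℝ P F := by
      intro _
      refine ⟨LinearMap.toContinuousLinearMap l, ?_⟩
      ext x
      constructor
      · rintro ⟨hx, hlx⟩
        refine ⟨hx, fun y hy => ?_⟩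
        have := hMP y hy
        rw [← hlx] at this
        exact this
      · rintro ⟨hx, hxy⟩
        have h1 : l p ≤ l x := hxy p (hVP p hp)
        have h2 := hMP x hx
        exact ⟨hx, by linarith⟩
    have hle : vectorSpan ℝ F ≤ LinearMap.ker l := by
      rw [vectorSpan_def, Submodule.span_le]
      rintro _ ⟨s, hs, t, ht, rfl⟩
      change l (s - t) = 0
      rw [map_sub, hs.2, ht.2, sub_self]
    have hker : finrank ℝ (LinearMap.ker l) = 2 := by
      have h1 := Module.Dual.finrank_ker_add_one_of_ne_zero hl0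
      have h2 : finrank ℝ E3 = 3 := by simp
      omega
    have hrank : finrank ℝ (vectorSpan ℝ F) = 2 := by
      apply le_antisymm
      · rw [← hker]
        exact Submodule.finrank_mono hle
      · have h1 : finrank ℝ (vectorSpan ℝ (Set.range ![p, q, r])) = 2 :=
          hind.finrank_vectorSpan (by simp)
        rw [← h1]
        apply Submodule.finrank_mono
        apply vectorSpan_mono
        rintro _ ⟨i, rfl⟩
        fin_cases i
        exacts [hpF, hqF, hrF]
    obtain ⟨x, y, z, hFxyz, d1, d2, d3, hor⟩ := hface F ⟨hexp, ⟨p, hpF⟩, hrank⟩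
    have hVF : ∀ v ∈ V, l v = M → v = x ∨ v = y ∨ v = z := by
      intro v hv hlv
      have h1 : v ∈ F.extremePoints ℝ := by
        have h2 := hexp.isExtreme.extremePoints_eq
        rw [h2]
        exact ⟨⟨hVP v hv, hlv⟩, (hVmem v).1 hv⟩
      rw [hFxyz] at h1
      have h3 := extremePoints_convexHull_subset h1
      simpa using h3
    have hpq : p ≠ q := fun h => by
      have := hind.injective (a₁ := 0) (a₂ := 1) (by simpa using h)
      simp at this
    have hpr : p ≠ r := fun h => by
      have := hind.injective (a₁ := 0) (a₂ := 2) (by simpa using h)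
      simp at this
    have hqr : q ≠ r := fun h => by
      have := hind.injective (a₁ := 1) (a₂ := 2) (by simpa using h)
      simp at this
    obtain ⟨gx, gy, gz⟩ := tr_pigeon x y z p q r hpq hpr hqr (hVF p hp hlp) (hVF q hq hlq)
      (hVF r hr hlr)
    have hx : x ∈ V ∧ l x = M := by
      rcases gx with h | h | h <;> rw [h]
      exacts [⟨hp, hlp⟩, ⟨hq, hlq⟩, ⟨hr, hlr⟩]
    have hy : y ∈ V ∧ l y = M := by
      rcases gy with h | h | h <;> rw [h]
      exacts [⟨hp, hlp⟩, ⟨hq, hlq⟩, ⟨hr, hlr⟩]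
    have hz : z ∈ V ∧ l z = M := by
      rcases gz with h | h | h <;> rw [h]
      exacts [⟨hp, hlp⟩, ⟨hq, hlq⟩, ⟨hr, hlr⟩]
    refine ⟨x, y, z, ⟨hx.1, hy.1, hz.1, d1, d2, d3, ?_⟩, ?_⟩
    · intro v hv hvx hvy hvz
      have hlv : l v < M := by
        rcases lt_or_eq_of_le (hM v hv) with h | h
        · exact h
        · exfalso
          rcases hVF v hv h with h | h | h
          exacts [hvx h, hvy h, hvz h]
      have h1 := hor o ho
      have h2 : vol3 (y - x) (z - x) (o - x) = - vol3 (y - x) (z - x) (x - o) := by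
        rw [← tr_L_apply, ← tr_L_apply, ← map_neg, neg_sub]
      have h3 := congrArg l (tr_cramer (y - x) (z - x) (o - x) (v - x))
      have e1 : l (y - x) = 0 := by rw [map_sub, hy.2, hx.2, sub_self]
      have e2 : l (z - x) = 0 := by rw [map_sub, hz.2, hx.2, sub_self]
      have e3 : l (v - x) = l v - M := by rw [map_sub, hx.2]
      have e4 : l (o - x) = l o - M := by rw [map_sub, hx.2]
      rw [map_add, map_add, map_smul, map_smul, map_smul, map_smul, e1, e2, e3, e4, smul_zero,
        smul_zero, zero_add, zero_add, smul_eq_mul, smul_eq_mul, h2] at h3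
      by_contra hcon
      push Not at hcon
      have e5 : 0 < -vol3 (y - x) (z - x) (x - o) * (l v - M) :=
        mul_pos_of_neg_of_neg (by linarith) (by linarith)
      have e6 : vol3 (y - x) (z - x) (v - x) * (l o - M) ≤ 0 :=
        mul_nonpos_of_nonneg_of_nonpos hcon (by linarith)
      linarith
    · intro v hv
      constructor
      · exact hVF v hv
      · rintro (h | h | h)
        · rw [h, hx.2]
        · rw [h, hy.2]
        · rw [h, hz.2]

end Pool.Agent.H944R3.NR
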